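import Mathlib

set_option autoImplicit false

namespace Pool.Agent.Results.MP_99bf3a_gt.NoFan

open Set Filter Topology

/-- A Tychonoff space in which every compact-finite family of sets is locally finite (so there is
no fan at all) and which is not a k-space. -/
theorem result : ∃ (X : Type) (_ : TopologicalSpace X), T35Space X ∧
    (∀ (ι : Type) (F : ι → Set X),
      (∀ K, IsCompact K → {a | (F a ∩ K).Nonempty}.Finite) → LocallyFinite F) ∧
    ¬ ∀ C : Set X, (∀ K, IsCompact K → IsClosed (Subtype.val ⁻¹' C : Set K)) → IsClosed C := by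
  classical
  let X : Type := {y : Set ℝ → Bool // {i | y i = true}.Countable ∨ y = fun _ => true}
  let o : X := ⟨fun _ => true, .inr rfl⟩
  have hb : ∀ s : Set (Set ℝ), s.Countable → IsCompact {x : X | ∀ i, x.1 i = true → i ∈ s} := by
    intro s hs
    have h1 : IsClosed {y : Set ℝ → Bool | ∀ i, y i = true → i ∈ s} := by
      simp only [ofPred_forall]
      exact isClosed_iInter fun i => (isClosed_discrete {b | b = true → i ∈ s}).preimage
        (f := fun y : Set ℝ → Bool => y i) (continuous_apply i)
    refine IsEmbedding.subtypeVal.isCompact_iff.2 (h1.isCompact.of_isClosed_subset ?_ ?_)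
    · convert h1 using 1
      exact Subset.antisymm (fun _ ⟨x, hx, e⟩ => e ▸ hx) fun y hy =>
        ⟨⟨y, .inl (hs.mono hy)⟩, hy, rfl⟩
    · exact fun _ ⟨x, hx, e⟩ => e ▸ hx
  have hc : ∀ x : X, x ≠ o → {i | x.1 i = true}.Countable := fun x hx =>
    x.2.resolve_right fun h => hx (Subtype.ext h)
  refine ⟨X, inferInstance, inferInstance, fun ι F h => ?_, fun h => ?_⟩
  · have h1 : {a | (F a).Nonempty}.Finite := by
      by_contra hn
      obtain ⟨s, s1, s2, s3⟩ := Set.Infinite.exists_subset_countable_infinite hn
      have : Nonempty X := ⟨o⟩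
      choose! x hx using fun a (ha : a ∈ s) => s1 ha
      refine s3 ((h _ ((hb _ ((s2.mono (sep_subset s fun a => x a ≠ o)).biUnion
        fun a ha => hc (x a) ha.2)).insert o)).subset fun a ha => ⟨x a, hx a ha, ?_⟩)
      by_cases e : x a = o
      · exact .inl e
      · exact .inr fun i hi => mem_biUnion ⟨ha, e⟩ hi
    exact fun x => ⟨univ, univ_mem, h1.subset fun a ha => ha.mono inter_subset_left⟩
  · have h1 := h {o}ᶜ fun K hK => by
      have h2 : ∀ β : Set ℝ, ∃ F : Finset ℝ, ∀ y ∈ K, y.1 β = false → ∃ r ∈ F, y.1 {r} = false := by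
        intro β
        have h3 : ∀ i b, IsClopen {y : X | y.1 i = b} := fun i b =>
          (isClopen_discrete {b}).preimage ((continuous_apply i).comp continuous_subtype_val)
        obtain ⟨F, hF⟩ := (hK.inter_right (h3 β false).1).elim_finite_subcover
          (fun r : ℝ => {y : X | y.1 {r} = false}) (fun r => (h3 _ _).2) fun y hy => by
            by_contra hn
            simp only [mem_iUnion, mem_ofPred_eq, not_exists, Bool.not_eq_false] at hn
            have h4 := hc y fun e => by simpa [e, o] using hy.2
            exact not_countable_univ ((h4.preimage singleton_injective).mono fun r _ => hn r)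
        exact ⟨F, fun y hy hβ => by simpa using hF ⟨hy, hβ⟩⟩
      choose F hF using h2
      obtain ⟨G, hG⟩ : ∃ G, ¬ (F ⁻¹' {G}).Countable := by
        by_contra hn
        push Not at hn
        have h4 : Cardinal.mk (Set ℝ) ≤ Cardinal.mk ℝ := by
          rw [← Cardinal.mk_congr (Equiv.sigmaFiberEquiv F), Cardinal.mk_sigma]
          refine (Cardinal.sum_le_sum _ (fun _ => Cardinal.aleph0) fun G =>
            Cardinal.le_aleph0_iff_set_countable.2 (hn G)).trans ?_
          simp
        exact absurd h4 (not_le.2 (by simpa using Cardinal.cantor _))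
      refine isOpen_compl_iff.1 (isOpen_iff_mem_nhds.2 fun y hy => ?_)
      have h5 : y.1 = o := not_not.1 hy
      have h6 : ∀ᶠ z : K in 𝓝 y, ∀ r ∈ G, z.1.1 {r} = true := (eventually_all_finset G).2
        fun r _ => ((isOpen_discrete {true}).preimage (f := fun z : K => z.1.1 {r})
          ((continuous_apply _).comp (continuous_subtype_val.comp continuous_subtype_val))).mem_nhds
          (by simp [h5, o])
      filter_upwards [h6] with z hz hne
      refine hG ((hc z hne).mono fun β hβ => ?_)
      by_contra hn
      obtain ⟨r, r1, r2⟩ := hF β z z.2 (by simpa using hn)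
      simp [hz r (hβ ▸ r1)] at r2
    obtain ⟨U, u1, u2⟩ := isOpen_induced_iff.1 (isClosed_compl_iff.1 h1)
    obtain ⟨I, u, u3, u4⟩ := isOpen_pi_iff.1 u1 o.1 (u2.ge rfl)
    let z : X := ⟨fun i => decide (i ∈ I), .inl (I.countable_toSet.mono fun i hi => by
      simpa using hi)⟩
    have h2 : z = o := u2.le (show z.1 ∈ U from u4 fun i hi => by
      simpa [z, Finset.mem_coe.1 hi] using (u3 i hi).2)
    obtain ⟨i, hi⟩ := Infinite.exists_notMem_finset I
    simpa [hi, o, z] using congrFun (congrArg Subtype.val h2) i

end Pool.Agent.Results.MP_99bf3a_gt.NoFan
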